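import Pool.Agent.Helper89.Hole.MDefs

/-!
KH-B: counting a free rich candidate point.
-/

namespace KHole

open Finset

namespace CandB

open Classical in
/-- the grid lines through a point -/
noncomputable def linesAt {g r : ℕ} (p : Par g r) (z : Pt) :
    Finset (Finset (Idx g r) × Finset (Idx g r)) := univ.filter fun l => p.OnLine l z

lemma mem_linesAt {g r : ℕ} {p : Par g r} {z : Pt} {l : Finset (Idx g r) × Finset (Idx g r)} :
    l ∈ linesAt p z ↔ p.OnLine l z := by simp [linesAt]

lemma card_sub (g r : ℕ) : Fintype.card (Finset (Idx g r)) = 2 ^ (r * g) := by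
  rw [Fintype.card_finset, Fintype.card_prod, Fintype.card_fin, Fintype.card_fin]

lemma card_linesAt {g r : ℕ} {p : Par g r} (hp : p.Generic) {z : Pt} (hz : z.1 ≠ 0) :
    (linesAt p z).card ≤ g := by
  apply hp.conc
  · intro l hl l' hl' hne
    rw [mem_linesAt] at hl hl'
    unfold Par.OnLine at hl hl'
    constructor
    · intro h
      rw [h] at hl
      have h2 : p.V l.2 = p.V l'.2 := by linarith
      exact hne (Prod.ext h (hp.V_inj h2))
    · intro h
      rw [h] at hl
      have h2 : (p.U l.1 - p.U l'.1) * z.1 = 0 := by linarith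
      rcases mul_eq_zero.1 h2 with h3 | h3
      · exact hne (Prod.ext (hp.U_inj (by linarith)) h)
      · exact hz h3
  · intro l₁ h₁ l₂ h₂ l₃ h₃
    rw [mem_linesAt] at h₁ h₂ h₃
    unfold Par.OnLine at h₁ h₂ h₃
    have e1 : p.V l₁.2 = z.2 - p.U l₁.1 * z.1 := by linarith
    have e2 : p.V l₂.2 = z.2 - p.U l₂.1 * z.1 := by linarith
    have e3 : p.V l₃.2 = z.2 - p.U l₃.1 * z.1 := by linarith
    rw [e1, e2, e3]; ring

lemma card_linesAt_zero {g r : ℕ} {p : Par g r} (hp : p.Generic) {z : Pt} (hz : z.1 = 0) :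
    (linesAt p z).card ≤ 2 ^ (r * g) := by
  rw [← card_sub g r, ← Finset.card_univ]
  apply Finset.card_le_card_of_injOn (fun l => l.1) (fun _ _ => mem_univ _)
  intro l hl l' hl' h
  simp only [mem_coe, mem_linesAt, Par.OnLine, hz, mul_zero, zero_add] at hl hl'
  exact Prod.ext h (hp.V_inj (by rw [← hl, ← hl']))

lemma card_axis {S : Finset Pt} (hS : GenPos S) : (S.filter fun z => z.1 = 0).card ≤ 2 := by
  by_contra h
  push Not at h
  obtain ⟨a, b, c, ha, hb, hc, hab, hac, hbc⟩ := Finset.two_lt_card_iff.1 h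
  rw [mem_filter] at ha hb hc
  apply hS a ha.1 b hb.1 c hc.1 hab hac hbc
  rw [collinear_iff_det3]
  unfold det3
  rw [ha.2, hb.2, hc.2]; ring

open Classical in
/-- the grid lines with a point of `S` -/
noncomputable def hitLines {g r : ℕ} (p : Par g r) (S : Finset Pt) :
    Finset (Finset (Idx g r) × Finset (Idx g r)) := S.biUnion fun z => linesAt p z

lemma card_hitLines {g r : ℕ} {p : Par g r} (hp : p.Generic) {S : Finset Pt} (hS : GenPos S) :
    (hitLines p S).card ≤ g * S.card + 2 * 2 ^ (r * g) := by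
  classical
  unfold hitLines
  refine card_biUnion_le.trans ?_
  rw [← sum_filter_add_sum_filter_not S (fun z => z.1 = 0), add_comm]
  apply add_le_add
  · refine (sum_le_card_nsmul _ _ g ?_).trans ?_
    · intro z hz
      rw [mem_filter] at hz
      exact card_linesAt hp hz.2
    · rw [smul_eq_mul, mul_comm]
      exact Nat.mul_le_mul_left _ (card_filter_le _ _)
  · refine (sum_le_card_nsmul _ _ (2 ^ (r * g)) ?_).trans ?_
    · intro z hz
      rw [mem_filter] at hz
      exact card_linesAt_zero hp hz.2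
    · rw [smul_eq_mul]
      exact Nat.mul_le_mul_right _ (card_axis hS)

open Classical in
/-- the candidates -/
noncomputable def cands (g r : ℕ) : Finset (Fin r × Finset (Idx g r) × Finset (Idx g r)) :=
  univ.filter fun κ => Free κ.1 κ.2.1 ∧ Free κ.1 κ.2.2

lemma mem_cands {g r : ℕ} {κ : Fin r × Finset (Idx g r) × Finset (Idx g r)} :
    κ ∈ cands g r ↔ Free κ.1 κ.2.1 ∧ Free κ.1 κ.2.2 := by simp [cands]

lemma card_free {g r : ℕ} (j : Fin r) :
    (((univ.erase j) ×ˢ (univ : Finset (Fin g))).powerset).card = 2 ^ ((r - 1) * g) := by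
  rw [card_powerset, card_product, card_erase_of_mem (mem_univ _), Finset.card_univ,
    Finset.card_univ, Fintype.card_fin, Fintype.card_fin]

lemma free_iff {g r : ℕ} (j : Fin r) (A : Finset (Idx g r)) :
    Free j A ↔ A ∈ ((univ.erase j) ×ˢ (univ : Finset (Fin g))).powerset := by
  rw [mem_powerset]
  constructor
  · intro h b hb
    rw [mem_product]
    exact ⟨mem_erase.2 ⟨h b hb, mem_univ _⟩, mem_univ _⟩
  · intro h b hb
    have := h hb
    rw [mem_product] at this
    exact (mem_erase.1 this.1).1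

lemma card_cands (g r : ℕ) : (cands g r).card = r * (2 ^ ((r - 1) * g)) ^ 2 := by
  classical
  rw [Finset.card_eq_sum_card_fiberwise (f := fun κ => κ.1) (t := univ) (fun _ _ => mem_univ _)]
  have h : ∀ j ∈ (univ : Finset (Fin r)), ((cands g r).filter fun κ => κ.1 = j).card =
      (2 ^ ((r - 1) * g)) ^ 2 := by
    intro j _
    have : ((cands g r).filter fun κ => κ.1 = j) =
        ((((univ.erase j) ×ˢ (univ : Finset (Fin g))).powerset) ×ˢ
        (((univ.erase j) ×ˢ (univ : Finset (Fin g))).powerset)).image fun q => (j, q.1, q.2) := by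
      ext κ
      simp only [mem_filter, mem_cands, mem_image, mem_product, ← free_iff, Prod.exists]
      constructor
      · rintro ⟨⟨h1, h2⟩, h3⟩
        refine ⟨κ.2.1, κ.2.2, ⟨?_, ?_⟩, ?_⟩
        · rw [← h3]; exact h1
        · rw [← h3]; exact h2
        · rw [← h3]
      · rintro ⟨A, B, ⟨h1, h2⟩, rfl⟩
        exact ⟨⟨h1, h2⟩, rfl⟩
    rw [this, card_image_of_injective, card_product, card_free, sq]
    intro q q' h
    simp only [Prod.mk.injEq] at h
    exact Prod.ext h.2.1 h.2.2
  rw [sum_congr rfl h, sum_const, Finset.card_univ, Fintype.card_fin, smul_eq_mul]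

lemma U_pos {g r : ℕ} {p : Par g r} (hp : p.Generic) (A : Finset (Idx g r)) : 0 < p.U A :=
  prod_pos fun b _ => hp.u_pos b

lemma cand_onLine {g r : ℕ} {p : Par g r} (hp : p.Generic) {j : Fin r} {A B : Finset (Idx g r)}
    (hA : Free j A) (hB : Free j B) (i : Fin g) :
    p.OnLine (insert (j, i) A, insert (j, i) B) (p.cand j A B) := by
  have h1 : (j, i) ∉ A := fun h => hA _ h rfl
  have h2 : (j, i) ∉ B := fun h => hB _ h rfl
  unfold Par.OnLine Par.cand Par.U Par.V
  simp only
  rw [prod_insert h1, sum_insert h2]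
  have := (U_pos hp A).ne'
  unfold Par.U at this
  unfold Par.v
  field_simp
  ring

lemma cand_fst_pos {g r : ℕ} {p : Par g r} (hp : p.Generic) (j : Fin r) (A B : Finset (Idx g r)) :
    0 < (p.cand j A B).1 := div_pos (hp.γ_pos j) (U_pos hp A)

/-- the grid lines through a candidate are the obvious ones -/
lemma grid_through {g r : ℕ} {p : Par g r} (hp : p.Generic) {j : Fin r} {A B : Finset (Idx g r)}
    (hA : Free j A) (hB : Free j B) {l : Finset (Idx g r) × Finset (Idx g r)}
    (hl : p.OnLine l (p.cand j A B)) :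
    ∃ i : Fin g, l = (insert (j, i) A, insert (j, i) B) := by
  classical
  by_contra hno
  push Not at hno
  have h1 := card_linesAt hp (z := p.cand j A B) (cand_fst_pos hp j A B).ne'
  have h2 : insert l (univ.image fun i : Fin g => (insert (j, i) A, insert (j, i) B)) ⊆
      linesAt p (p.cand j A B) := by
    intro l' hl'
    rw [mem_insert, mem_image] at hl'
    rw [mem_linesAt]
    rcases hl' with rfl | ⟨i, _, rfl⟩
    · exact hl
    · exact cand_onLine hp hA hB i
  have h3 := card_le_card h2
  rw [card_insert_of_notMem, card_image_of_injective, Finset.card_univ, Fintype.card_fin] at h3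
  · omega
  · intro i i' h
    simp only [Prod.mk.injEq] at h
    have h4 : (j, i) ∈ insert (j, i') A := by rw [← h.1]; exact mem_insert_self _ _
    rw [mem_insert] at h4
    rcases h4 with h4 | h4
    · exact (Prod.mk.inj h4).2
    · exact absurd rfl (hA _ h4)
  · rw [mem_image]
    rintro ⟨i, _, h⟩
    exact hno i h.symm

lemma sq_le_two_pow (n : ℕ) (h : 4 ≤ n) : n * n ≤ 2 ^ n := by
  induction n, h using Nat.le_induction with
  | base => norm_num
  | succ n hn ih =>
    rw [pow_succ]
    nlinarith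

end CandB

open CandB

theorem exists_cand (s K : ℕ) (hs : 1 ≤ s) : ∃ r : ℕ, ∀ p : Par (s + 1) r, p.Generic →
    ∀ S : Finset Pt, GenPos S → S.card ≤ K * 2 ^ (r * (s + 1)) →
    ∃ (j : Fin r) (A B : Finset (Idx (s + 1) r)), Free j A ∧ Free j B ∧
      (∀ i : Fin (s + 1), ∀ z ∈ S, ¬ p.OnLine (insert (j, i) A, insert (j, i) B) z) ∧
      (∀ z ∈ S, ∀ z' ∈ S, z ≠ z' →
        ¬ Collinear ℝ ({z, z', p.cand j A B} : Set Pt)) := by
  classical
  have _ := hs
  set g := s + 1 with hg
  set c := g * (g * K + 2) with hc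
  set d := 2 * K + g * K ^ 2 + 1 with hd
  refine ⟨4 + c + 4 ^ g * d, ?_⟩
  set r := 4 + c + 4 ^ g * d with hr
  intro p hp S hS hcard
  by_contra hno
  push Not at hno
  set N := 2 ^ (r * g) with hN
  -- the bad sets
  set bad1 : Finset (Fin r × Finset (Idx g r) × Finset (Idx g r)) :=
    (hitLines p S ×ˢ (univ : Finset (Idx g r))).image
      fun q => (q.2.1, q.1.1.erase q.2, q.1.2.erase q.2) with hbad1
  set bad2 := S.biUnion fun z => (cands g r).filter fun κ => (p.cand κ.1 κ.2.1 κ.2.2).1 = z.1
    with hbad2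
  set bad3 := S.biUnion fun z => (cands g r).filter fun κ => (p.cand κ.1 κ.2.1 κ.2.2).2 = z.2
    with hbad3
  set bad4 := (S ×ˢ S).biUnion fun q => (cands g r).filter fun κ =>
    q.1.1 ≠ q.2.1 ∧ q.1.2 ≠ q.2.2 ∧
    (∀ A B, ¬ ((q.2.2 - q.1.2) / (q.2.1 - q.1.1) = p.U A ∧
      q.1.2 - (q.2.2 - q.1.2) / (q.2.1 - q.1.1) * q.1.1 = p.V B)) ∧
    (p.cand κ.1 κ.2.1 κ.2.2).2 = (q.2.2 - q.1.2) / (q.2.1 - q.1.1) *
      (p.cand κ.1 κ.2.1 κ.2.2).1 + (q.1.2 - (q.2.2 - q.1.2) / (q.2.1 - q.1.1) * q.1.1)
    with hbad4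
  have hcover : cands g r ⊆ bad1 ∪ (bad2 ∪ (bad3 ∪ bad4)) := by
    intro κ hκ
    obtain ⟨j, A, B⟩ := κ
    have hκ' := mem_cands.1 hκ
    simp only at hκ'
    obtain ⟨hA, hB⟩ := hκ'
    have hline : ∀ i : Fin g, ∀ z ∈ S, p.OnLine (insert (j, i) A, insert (j, i) B) z →
        (j, A, B) ∈ bad1 := by
      intro i z hz hl
      rw [hbad1, mem_image]
      refine ⟨((insert (j, i) A, insert (j, i) B), (j, i)), ?_, ?_⟩
      · rw [mem_product]
        refine ⟨?_, mem_univ _⟩
        unfold hitLines
        rw [mem_biUnion]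
        exact ⟨z, hz, mem_linesAt.2 hl⟩
      · have h1 : (j, i) ∉ A := fun h => hA _ h rfl
        have h2 : (j, i) ∉ B := fun h => hB _ h rfl
        simp only [erase_insert h1, erase_insert h2]
    by_cases hex : ∃ i : Fin g, ∃ z ∈ S, p.OnLine (insert (j, i) A, insert (j, i) B) z
    · obtain ⟨i, z, hz, hl⟩ := hex
      exact mem_union_left _ (hline i z hz hl)
    · push Not at hex
      obtain ⟨z, hz, z', hz', hne, hcol⟩ := hno j A B hA hB hex
      rw [collinear_iff_det3] at hcol
      unfold det3 at hcol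
      by_cases h1 : z.1 = z'.1
      · apply mem_union_right
        apply mem_union_left
        rw [hbad2, mem_biUnion]
        refine ⟨z, hz, mem_filter.2 ⟨hκ, ?_⟩⟩
        have h2 : z'.2 - z.2 ≠ 0 := by
          intro h
          exact hne (Prod.ext h1 (by linarith))
        rw [h1, sub_self, zero_mul, zero_sub, neg_eq_zero] at hcol
        rcases mul_eq_zero.1 hcol with h3 | h3
        · exact absurd h3 h2
        · simp only; linarith
      · by_cases h2 : z.2 = z'.2
        · apply mem_union_right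
          apply mem_union_right
          apply mem_union_left
          rw [hbad3, mem_biUnion]
          refine ⟨z, hz, mem_filter.2 ⟨hκ, ?_⟩⟩
          rw [h2, sub_self, zero_mul, sub_zero] at hcol
          rcases mul_eq_zero.1 hcol with h3 | h3
          · exact absurd (by linarith : z.1 = z'.1) h1
          · simp only; linarith
        · have hx : z'.1 - z.1 ≠ 0 := fun h => h1 (by linarith)
          have hon : (p.cand j A B).2 = (z'.2 - z.2) / (z'.1 - z.1) * (p.cand j A B).1 +
              (z.2 - (z'.2 - z.2) / (z'.1 - z.1) * z.1) := by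
            field_simp
            linarith
          by_cases hgrid : ∃ A' B', (z'.2 - z.2) / (z'.1 - z.1) = p.U A' ∧
              z.2 - (z'.2 - z.2) / (z'.1 - z.1) * z.1 = p.V B'
          · obtain ⟨A', B', e1, e2⟩ := hgrid
            have h3 : p.OnLine (A', B') (p.cand j A B) := by
              unfold Par.OnLine
              simp only
              rw [← e2, ← e1]
              exact hon
            obtain ⟨i, hi⟩ := grid_through hp hA hB h3
            apply mem_union_left
            apply hline i z hz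
            rw [← hi]
            unfold Par.OnLine
            simp only
            rw [← e2, ← e1]
            ring
          · push Not at hgrid
            apply mem_union_right
            apply mem_union_right
            apply mem_union_right
            rw [hbad4, mem_biUnion]
            refine ⟨(z, z'), mem_product.2 ⟨hz, hz'⟩, mem_filter.2 ⟨hκ, h1, h2, ?_, hon⟩⟩
            rintro A' B' ⟨e1, e2⟩
            exact hgrid A' B' e1 e2
  have hb1 : bad1.card ≤ (g * S.card + 2 * N) * (r * g) := by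
    refine card_image_le.trans ?_
    rw [card_product, Finset.card_univ, Fintype.card_prod, Fintype.card_fin, Fintype.card_fin]
    exact Nat.mul_le_mul_right _ (card_hitLines hp hS)
  have hb2 : bad2.card ≤ S.card * N := by
    refine card_biUnion_le.trans ?_
    refine (sum_le_card_nsmul _ _ N ?_).trans (by rw [smul_eq_mul])
    intro z _
    rw [hN, ← card_sub g r, ← Finset.card_univ]
    apply Finset.card_le_card_of_injOn (fun κ => κ.2.2) (fun _ _ => mem_univ _)
    intro κ hκ κ' hκ' h
    simp only [coe_filter, Set.mem_ofPred_eq, mem_cands] at hκ hκ'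
    have := hp.xlevel κ.1 κ'.1 κ.2.1 κ'.2.1 hκ.1.1 hκ'.1.1 (by
      have e1 : p.γ κ.1 / p.U κ.2.1 = z.1 := hκ.2
      have e2 : p.γ κ'.1 / p.U κ'.2.1 = z.1 := hκ'.2
      rw [e1, e2])
    exact Prod.ext this.1 (Prod.ext this.2 h)
  have hb3 : bad3.card ≤ S.card * N := by
    refine card_biUnion_le.trans ?_
    refine (sum_le_card_nsmul _ _ N ?_).trans (by rw [smul_eq_mul])
    intro z _
    rw [hN, ← card_sub g r, ← Finset.card_univ]
    apply Finset.card_le_card_of_injOn (fun κ => κ.2.1) (fun _ _ => mem_univ _)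
    intro κ hκ κ' hκ' h
    simp only [coe_filter, Set.mem_ofPred_eq, mem_cands] at hκ hκ'
    have := hp.ylevel κ.1 κ'.1 κ.2.2 κ'.2.2 hκ.1.2 hκ'.1.2 (by
      have e1 : p.α κ.1 + p.V κ.2.2 = z.2 := hκ.2
      have e2 : p.α κ'.1 + p.V κ'.2.2 = z.2 := hκ'.2
      rw [e1, e2])
    exact Prod.ext this.1 (Prod.ext h this.2)
  have hb4 : bad4.card ≤ (S.card * S.card) * g := by
    refine card_biUnion_le.trans ?_
    refine (sum_le_card_nsmul _ _ g ?_).trans (by rw [smul_eq_mul, card_product])
    rintro ⟨z, z'⟩ _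
    by_cases hcond : z.1 ≠ z'.1 ∧ z.2 ≠ z'.2 ∧ (∀ A B, ¬ ((z'.2 - z.2) / (z'.1 - z.1) = p.U A ∧
      z.2 - (z'.2 - z.2) / (z'.1 - z.1) * z.1 = p.V B))
    · obtain ⟨h1, h2, h3⟩ := hcond
      apply hp.collin ((z'.2 - z.2) / (z'.1 - z.1)) (z.2 - (z'.2 - z.2) / (z'.1 - z.1) * z.1)
      · exact div_ne_zero (fun h => h2 (by linarith)) (fun h => h1 (by linarith))
      · exact h3
      · intro κ hκ
        rw [mem_filter, mem_cands] at hκ
        exact ⟨hκ.1.1, hκ.1.2, hκ.2.2.2.2⟩
    · rw [Finset.filter_false_of_mem]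
      · simp
      · intro κ _ h
        exact hcond ⟨h.1, h.2.1, h.2.2.1⟩
  have hT := card_le_card hcover
  have hU : (bad1 ∪ (bad2 ∪ (bad3 ∪ bad4))).card ≤
      bad1.card + (bad2.card + (bad3.card + bad4.card)) :=
    (card_union_le _ _).trans (Nat.add_le_add_left ((card_union_le _ _).trans
      (Nat.add_le_add_left (card_union_le _ _) _)) _)
  rw [card_cands] at hT
  -- arithmetic
  set Mm := 2 ^ ((r - 1) * g) with hMm
  have hr1 : 1 ≤ r := by omega
  have hNM : N = Mm * 2 ^ g := by
    rw [hN, hMm, ← pow_add]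
    congr 1
    have : r * g = (r - 1 + 1) * g := by rw [Nat.sub_add_cancel hr1]
    rw [this]; ring
  have hNc : r * c ≤ N := by
    have h1 : r * r ≤ 2 ^ r := by
      have h4 : 4 ≤ r := by omega
      exact sq_le_two_pow r h4
    have h2 : r * c ≤ r * r := Nat.mul_le_mul_left _ (by omega)
    have h3 : 2 ^ r ≤ N := by
      rw [hN]
      exact Nat.pow_le_pow_right (by norm_num) (Nat.le_mul_of_pos_right _ (by omega))
    omega
  have hSN : S.card ≤ K * N := hcard
  have hfin : r * Mm ^ 2 ≤ d * (4 ^ g * Mm ^ 2) := by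
    have e4 : 4 ^ g * Mm ^ 2 = N ^ 2 := by
      have e5 : (2 ^ g) ^ 2 = 4 ^ g := by
        rw [← pow_mul, mul_comm, pow_mul]; norm_num
      rw [hNM, mul_pow, e5]
      ring
    rw [e4]
    calc r * Mm ^ 2 ≤ bad1.card + (bad2.card + (bad3.card + bad4.card)) := hT.trans hU
      _ ≤ (g * (K * N) + 2 * N) * (r * g) + ((K * N) * N + ((K * N) * N + (K * N) * (K * N) * g)) := by
          gcongr
          · exact hb1.trans (by gcongr)
          · exact hb2.trans (by gcongr)
          · exact hb3.trans (by gcongr)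
          · exact hb4.trans (by gcongr)
      _ = (r * c) * N + (2 * K + g * K ^ 2) * N ^ 2 := by rw [hc]; ring
      _ ≤ N * N + (2 * K + g * K ^ 2) * N ^ 2 := by gcongr
      _ = d * N ^ 2 := by rw [hd]; ring
  have hMpos : 0 < Mm ^ 2 := by positivity
  have hr2 : r ≤ 4 ^ g * d := by
    have : r * Mm ^ 2 ≤ (4 ^ g * d) * Mm ^ 2 := by
      calc _ ≤ _ := hfin
        _ = _ := by ring
    exact Nat.le_of_mul_le_mul_right this hMpos
  omega

end KHole
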